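import Pool.Agent.Q54.FM.DegFin

set_option autoImplicit false

/-!
# Degrees without exceptions for several numbers of points

Let `T` be a finite set of nonsquares `r ≥ 10`, no product of two different ones being a perfect square. The
Harbourne-Hirschowitz conjecture in degree `d` holds for EVERY multiplicity `m ≥ 1` and EVERY number `r` of general points
which is in `T` or is a perfect square, `13`, `21` or at least `37`, for all `d` outside a set of degrees which contains at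
most the proportion `1 - ∏_(r in T) (1 - bad r)` of

* the values `f(n)`, `n < M`, of ANY polynomial `f` with integer coefficients of degree between `1` and `K` whose leading
  coefficient is at most `M ^ κ` (all intervals of length `M` wherever they are, arithmetic progressions with differences
  `≤ M ^ κ`, squares, `k`-th powers, ...),
* the numbers `b p + h`, `p ≤ M` prime, `p ≡ a mod q` with `|b|, q ≤ M ^ κ`,

up to an error `M ^ (1 - κ)`; here `bad r ≤ 1 - 3 / √r` and `bad r < 1 / 3`. In particular this is true for `T = {10}` for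
at least `94` percent of all degrees and of all prime degrees, and for `T = {10, 11, 12}` for at least `74` percent.
-/

namespace Pool.Agent.Results.MP_d03834_ag.DegreesForSeveralNumbers

/-- For `r` general points (a nonempty open set) the space of the forms of degree `d` which vanish to order `m` at the
points `(P i 0 : P i 1 : 1)` has the expected dimension. -/
def At (r m d : ℕ) : Prop :=
  ∃ F : MvPolynomial (Fin r × Fin 2) ℂ, F ≠ 0 ∧
    ∀ P : Fin r → Fin 2 → ℂ,
      MvPolynomial.eval (fun ij : Fin r × Fin 2 => P ij.1 ij.2) F ≠ 0 →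
        Module.finrank ℂ
          ↥(MvPolynomial.homogeneousSubmodule (Fin 3) ℂ d ⊓
            Submodule.restrictScalars ℂ
              (⨅ i : Fin r,
                (Ideal.span
                  ({MvPolynomial.X 0 - MvPolynomial.C (P i 0) * MvPolynomial.X 2,
                    MvPolynomial.X 1 - MvPolynomial.C (P i 1) * MvPolynomial.X 2} :
                    Set (MvPolynomial (Fin 3) ℂ))) ^ m))
        = Nat.choose (d + 2) 2 - r * Nat.choose (m + 1) 2

lemma at_of (r m d : ℕ) (_hr : 10 ≤ r) (h : Pool.Agent.Q54.FM.ED r m d) : At r m d := by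
  obtain ⟨F, hF, hF'⟩ := h
  refine ⟨F.map (algebraMap ℚ ℂ), H932R3.map_ne_zero_of hF, fun Y hY => ?_⟩
  rw [MvPolynomial.eval_map] at hY
  have h2 := hF' Y hY
  unfold Pool.Agent.H932R3.ExpDim at h2
  rw [Finset.sum_const, Finset.card_univ, Fintype.card_fin, smul_eq_mul] at h2
  exact h2

/-- `SparseExceptions κ K M η P`: the property `P` fails rarely in polynomial sequences and along primes.
1. For every polynomial `f` with integer coefficients of degree between `1` and `K`, the leading coefficient being at most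
   `M ^ κ` in absolute value (the other coefficients are arbitrary), `P (f n)` fails for at most
   `η M + M ^ (1 - κ)` of the natural numbers `n < M` with `f n > 0`.
2. For all integers `b ≠ 0` and `h` and natural numbers `q ≥ 1` and `a`, `|b|, q ≤ M ^ κ`, `P (b p + h)` fails for at most
   `η T + M ^ (1 - κ)` of the `T` primes `p ≤ M` with `p ≡ a mod q` (only those with `b p + h > 0` are counted). -/
def SparseExceptions (κ : ℝ) (K M : ℕ) (η : ℝ) (P : ℕ → Prop) : Prop :=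
  (∀ f : Polynomial ℤ, 1 ≤ f.natDegree → f.natDegree ≤ K → |(f.leadingCoeff : ℝ)| ≤ (M : ℝ) ^ κ →
    ({n : ℕ | n < M ∧ 0 < f.eval (n : ℤ) ∧ ¬ P (f.eval (n : ℤ)).toNat}.ncard : ℝ) ≤
      η * M + (M : ℝ) ^ (1 - κ)) ∧
  (∀ b h : ℤ, b ≠ 0 → |(b : ℝ)| ≤ (M : ℝ) ^ κ → ∀ q a : ℕ, 1 ≤ q → (q : ℝ) ≤ (M : ℝ) ^ κ →
    ({p : ℕ | p ≤ M ∧ p.Prime ∧ p ≡ a [MOD q] ∧ 0 < b * p + h ∧ ¬ P (b * p + h).toNat}.ncard : ℝ) ≤
      η * ({p : ℕ | p ≤ M ∧ p.Prime ∧ p ≡ a [MOD q]}.ncard : ℝ) + (M : ℝ) ^ (1 - κ))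

/-- The bound for the proportion of the exceptional degrees. -/
noncomputable def bad (r : ℕ) : ℝ :=
  (min (Real.sqrt r - 3) (2 / 3 + 9 / (4 * Real.sqrt r)) +
    min (Real.sqrt r - 3) (2 / 3 + 1 / (4 * Real.sqrt r))) / (2 * Real.sqrt r)

/-- The conjecture holds in the degree `d` for all multiplicities, for the numbers `r` of points which are in `T`, or are
perfect squares `≥ 10`, or `13`, `21`, or at least `37`. -/
def Holds (T : Finset ℕ) (d : ℕ) : Prop :=
  ∀ r : ℕ, (r ∈ T ∨ 37 ≤ r ∨ r = 13 ∨ r = 21 ∨ (10 ≤ r ∧ IsSquare r)) → ∀ m : ℕ, 1 ≤ m → At r m d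

lemma sqrt_three {r : ℕ} (hr : 10 ≤ r) : 3 < Real.sqrt r := by
  rw [Real.lt_sqrt (by norm_num)]
  have : (10 : ℝ) ≤ r := by exact_mod_cast hr
  linarith

lemma bad_bounds {r : ℕ} (hr : 10 ≤ r) : 0 ≤ bad r ∧ bad r < 1 / 3 ∧ 3 / Real.sqrt r ≤ 1 - bad r := by
  obtain ⟨h1, h2, h3⟩ := TH885.NW.win_len hr
  simp only [TH885.NW.loW, TH885.NW.upW] at h1 h2 h3
  have h4 := sqrt_three hr
  have hpos : 0 < 2 * Real.sqrt r := by linarith
  refine ⟨div_nonneg (by linarith) hpos.le, ?_, ?_⟩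
  · unfold bad
    rw [div_lt_iff₀ hpos]
    linarith
  · have h5 : bad r ≤ ((Real.sqrt r - 3) + (Real.sqrt r - 3)) / (2 * Real.sqrt r) := by
      unfold bad
      exact div_le_div_of_nonneg_right (add_le_add (min_le_left _ _) (min_le_left _ _)) hpos.le
    have h6 : ((Real.sqrt r - 3) + (Real.sqrt r - 3)) / (2 * Real.sqrt r) = 1 - 3 / Real.sqrt r := by
      field_simp
      ring
    linarith

lemma bad_ge {r : ℕ} {q : ℝ} (hr : 10 ≤ r) (hq : Real.sqrt r < q) : 3 / q ≤ 1 - bad r := by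
  have hs : 0 < Real.sqrt r := by linarith [sqrt_three hr]
  exact le_trans (div_le_div_of_nonneg_left (by norm_num) hs hq.le) (bad_bounds hr).2.2

lemma num10 : 0.9486 ≤ 1 - bad 10 := by
  have h : Real.sqrt ((10 : ℕ) : ℝ) < 3.1623 := by
    rw [Real.sqrt_lt' (by norm_num)]
    norm_num
  exact le_trans (by norm_num) (bad_ge le_rfl h)

lemma num11 : 0.9045 ≤ 1 - bad 11 := by
  have h : Real.sqrt ((11 : ℕ) : ℝ) < 3.3167 := by
    rw [Real.sqrt_lt' (by norm_num)]
    norm_num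
  exact le_trans (by norm_num) (bad_ge (by norm_num) h)

lemma num12 : 0.8659 ≤ 1 - bad 12 := by
  have h : Real.sqrt ((12 : ℕ) : ℝ) < 3.4642 := by
    rw [Real.sqrt_lt' (by norm_num)]
    norm_num
  exact le_trans (by norm_num) (bad_ge (by norm_num) h)

lemma not_sq {n : ℕ} (h : n < 225) (h' : ∀ x ∈ Finset.range 15, x * x ≠ n) : ¬ IsSquare n := by
  rintro ⟨x, hx⟩
  refine h' x ?_ hx.symm
  rw [Finset.mem_range]
  by_contra hcon
  have h2 : 15 ≤ x := by omega
  have h3 := Nat.mul_le_mul h2 h2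
  omega

theorem main (T : Finset ℕ) (hT : T.Nonempty) (hT10 : ∀ r ∈ T, 10 ≤ r) (hsq : ∀ r ∈ T, ¬ IsSquare r)
    (hpair : ∀ r ∈ T, ∀ r' ∈ T, r ≠ r' → ¬ IsSquare (r * r')) (K : ℕ) :
    ∃ κ : ℝ, 0 < κ ∧ κ ≤ 1 ∧ ∃ M₀ : ℕ, 2 ≤ M₀ ∧ ∀ M : ℕ, M₀ ≤ M →
      Pool.Agent.Q54.FM.Sparse κ K M (1 - ∏ r ∈ T, (1 - bad r)) (Holds T) := by
  have hD : Pool.Agent.Q54.FM.DInputs fun r d => ∀ m : ℕ, 1 ≤ m → At r m d :=
    Pool.Agent.Q54.FM.dinputs.mono fun r d hr _ h m hm => at_of r m d hr (h m hm)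
  refine Pool.Agent.Q54.FM.deg_several (fun r d => ∀ m : ℕ, 1 ≤ m → At r m d) T hT hsq hpair
    (fun r => min (Real.sqrt r - 3) (2 / 3 + 9 / (4 * Real.sqrt r)))
    (fun r => min (Real.sqrt r - 3) (2 / 3 + 1 / (4 * Real.sqrt r))) ?_ ?_ (Holds T) ?_ K
  · intro r hr
    obtain ⟨h1, h2, h3⟩ := TH885.NW.win_len (hT10 r hr)
    simp only [TH885.NW.loW, TH885.NW.upW] at h1 h2 h3
    refine ⟨by linarith, ?_⟩
    have := (bad_bounds (hT10 r hr)).2.1
    unfold bad at this
    linarith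
  · intro r hr d hd hn
    exact hD.1 r d (hT10 r hr) hd hn
  · intro d hd h r hr m hm
    rcases hr with hr | hr
    · exact h r hr m hm
    · exact hD.2 r d hr hd m hm

/-- 1. Let `T` be a nonempty finite set of numbers `r ≥ 10`, no element of `T` and no product of two different elements
being a perfect square. For every `K` there are `0 < κ ≤ 1` and `M₀` such that for all `M ≥ M₀` the degrees `d` for which
`Holds T d` fails have the proportion at most `1 - ∏_(r in T) (1 - bad r)` in all the sequences of `SparseExceptions`, up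
to `M ^ (1 - κ)`.
2. `0 ≤ bad r < 1 / 3` and `1 - bad r ≥ 3 / √r` for `r ≥ 10`.
3. For all large `M` at least `0.94 M` of the degrees `d < M` and at least `0.94 π(M)` of the prime degrees `d ≤ M` satisfy
`Holds {10} d`.
4. For all large `M` at least `0.74 M` of the degrees `d < M` and at least `0.74 π(M)` of the prime degrees `d ≤ M` satisfy
`Holds {10, 11, 12} d`. -/
theorem result :
    (∀ T : Finset ℕ, T.Nonempty → (∀ r ∈ T, 10 ≤ r) → (∀ r ∈ T, ¬ IsSquare r) →
      (∀ r ∈ T, ∀ r' ∈ T, r ≠ r' → ¬ IsSquare (r * r')) → ∀ K : ℕ,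
      ∃ κ : ℝ, 0 < κ ∧ κ ≤ 1 ∧ ∃ M₀ : ℕ, ∀ M : ℕ, M₀ ≤ M →
        SparseExceptions κ K M (1 - ∏ r ∈ T, (1 - bad r)) (Holds T)) ∧
    (∀ r : ℕ, 10 ≤ r → 0 ≤ bad r ∧ bad r < 1 / 3 ∧ 3 / Real.sqrt r ≤ 1 - bad r) ∧
    ((∃ M₁ : ℕ, ∀ M : ℕ, M₁ ≤ M → 0.94 * (M : ℝ) ≤ ({d : ℕ | d < M ∧ 0 < d ∧ Holds {10} d}.ncard : ℝ)) ∧
      (∃ M₁ : ℕ, ∀ M : ℕ, M₁ ≤ M →
        0.94 * (Nat.primeCounting M : ℝ) ≤ ({p : ℕ | p ≤ M ∧ p.Prime ∧ Holds {10} p}.ncard : ℝ))) ∧
    ((∃ M₁ : ℕ, ∀ M : ℕ, M₁ ≤ M → 0.74 * (M : ℝ) ≤ ({d : ℕ | d < M ∧ 0 < d ∧ Holds {10, 11, 12} d}.ncard : ℝ)) ∧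
      (∃ M₁ : ℕ, ∀ M : ℕ, M₁ ≤ M →
        0.74 * (Nat.primeCounting M : ℝ) ≤ ({p : ℕ | p ≤ M ∧ p.Prime ∧ Holds {10, 11, 12} p}.ncard : ℝ))) := by
  refine ⟨fun T hT h10 hsq hpair K => ?_, fun r hr => bad_bounds hr, ?_, ?_⟩
  · obtain ⟨κ, hκ, hκ1, M₀, -, h⟩ := main T hT h10 hsq hpair K
    exact ⟨κ, hκ, hκ1, M₀, h⟩
  · have h := main {10} (by simp) (by simp)
      (fun r hr => by
        rw [Finset.mem_singleton] at hr
        subst hr
        exact not_sq (by norm_num) (by decide))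
      (fun r hr r' hr' hne => by
        rw [Finset.mem_singleton] at hr hr'
        exact absurd (hr.trans hr'.symm) hne) 1
    rw [Finset.prod_singleton] at h
    refine Pool.Agent.Q54.FM.density_of_sparse' (c := 1 - bad 10) (c' := 0.94) ?_ _ h
    have := num10
    norm_num at this ⊢
    linarith
  · have h := main {10, 11, 12} (by simp) (by simp)
      (fun r hr => by
        have h1 : ∀ r ∈ ({10, 11, 12} : Finset ℕ), r < 225 ∧ ∀ x ∈ Finset.range 15, x * x ≠ r := by decide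
        exact not_sq (h1 r hr).1 (h1 r hr).2)
      (fun r hr r' hr' hne => by
        have h1 : ∀ r ∈ ({10, 11, 12} : Finset ℕ), ∀ r' ∈ ({10, 11, 12} : Finset ℕ),
          r ≠ r' → r * r' < 225 ∧ ∀ x ∈ Finset.range 15, x * x ≠ r * r' := by decide
        exact not_sq (h1 r hr r' hr' hne).1 (h1 r hr r' hr' hne).2) 1
    refine Pool.Agent.Q54.FM.density_of_sparse' (c := ∏ r ∈ ({10, 11, 12} : Finset ℕ), (1 - bad r)) (c' := 0.74) ?_ _ h
    rw [Finset.prod_insert (by decide), Finset.prod_insert (by decide), Finset.prod_singleton]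
    have e1 := mul_le_mul num11 num12 (by norm_num) (le_trans (by norm_num) num11)
    have e2 := mul_le_mul num10 e1 (by norm_num) (le_trans (by norm_num) num10)
    norm_num at e2 ⊢
    linarith

end Pool.Agent.Results.MP_d03834_ag.DegreesForSeveralNumbers
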