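import Pool.Agent.Q54.FM.Inp
import Pool.Agent.Q54.FM.Cor

set_option autoImplicit false

/-!
# The uniform Harbourne-Hirschowitz conjecture: sparse sets of multiplicities, several numbers of points at once

We show for most of the multiplicities `m` in certain sparse sets that for `r` general points of the complex projective
plane the space of the forms of degree `d` vanishing to order `m` at the points has the expected dimension, for ALL
degrees `d` (for `r ≥ 37` and for `r = 13, 21` this is known for all `m` from the starting files). The proportion of the exceptional multiplicities is at most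
`bad r < 1` for a single `r < 37` (`bad 10 < 0.1623`, `bad 11 < 0.0528`, `bad 12 < 0.4642`, `bad 15 < 0.1456`), and at most
`1 - ∏ (1 - bad r)` for several `r < 37` in different square classes, together with ALL `r ≥ 37`, `r = 13, 21` and the
squares: for instance the conclusion holds for more than `67` per cent of the multiplicities for all
`r = 10, 11, 13, 15, 16, 21, 25, 36` and `r ≥ 37` at once. The multiplicities run through

* the values `f(n)`, `n < M`, of ANY polynomial `f` with integer coefficients of degree between `1` and `K` whose leading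
  coefficient is at most `M ^ κ` (all intervals of length `M` wherever they are, arithmetic progressions with differences
  `≤ M ^ κ`, squares, `k`-th powers, ...),
* the numbers `b p + h`, `p ≤ M` prime, `p ≡ a mod d` with `|b|, d ≤ M ^ κ` (prime multiplicities, multiplicities `p + h`
  with `h` of any size, ...),

with an error term `M ^ (1 - κ)`.

Proof. If `m` is exceptional for `r < 37`, then an integer lies in a window of length less than one around
`√r (m + 1 / 2) - 3 / 2`, or (for `r = 11, 15`) a multiple of three lies in a window of length less than `1 / 2`; for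
`r ≥ 37`, for `r = 13, 21` and for the squares there are no exceptions (starting files). The vectors of the multiples of
`√r`, `r` in different square classes, by the elements of the sequences are jointly uniformly distributed modulo one with
a power saving. This follows from the bounds for exponential sums of the library of the team (`Pool.Agent.Q29.Eqd`) and
from a lower bound `|v_1 √r_1 + ... + v_s √r_s - a| ≥ c / H ^ D` for integers of absolute value at most `H`, proved with
the determinant of the multiplication on the multiquadratic field (`Pool.Agent.Q54.FM.liou`).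
-/

namespace Pool.Agent.Results.MP_d03834_ag.PolynomialPrimeMultiplicities

/-- For `r` general points (one nonempty open set for all degrees) the space of the forms of degree `d` which vanish to
order `m` at the points `(P i 0 : P i 1 : 1)` has the expected dimension, for EVERY degree `d`. -/
def AllDegrees (r m : ℕ) : Prop :=
  ∃ F : MvPolynomial (Fin r × Fin 2) ℂ, F ≠ 0 ∧
    ∀ P : Fin r → Fin 2 → ℂ,
      MvPolynomial.eval (fun ij : Fin r × Fin 2 => P ij.1 ij.2) F ≠ 0 →
      ∀ d : ℕ,
        Module.finrank ℂ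
          ↥(MvPolynomial.homogeneousSubmodule (Fin 3) ℂ d ⊓
            Submodule.restrictScalars ℂ
              (⨅ i : Fin r,
                (Ideal.span
                  ({MvPolynomial.X 0 - MvPolynomial.C (P i 0) * MvPolynomial.X 2,
                    MvPolynomial.X 1 - MvPolynomial.C (P i 1) * MvPolynomial.X 2} :
                    Set (MvPolynomial (Fin 3) ℂ))) ^ m))
        = Nat.choose (d + 2) 2 - r * Nat.choose (m + 1) 2

lemma allDegrees_of (r m : ℕ) (_hr : 10 ≤ r) (_hm : 0 < m) (h : Pool.Agent.Q54.FM.Gd r m) : AllDegrees r m := by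
  obtain ⟨F, hF, hF'⟩ := h
  refine ⟨F.map (algebraMap ℚ ℂ), H932R3.map_ne_zero_of hF, fun Y hY d => ?_⟩
  rw [MvPolynomial.eval_map] at hY
  have h2 := hF' Y hY d
  unfold Pool.Agent.H932R3.ExpDim at h2
  rw [Finset.sum_const, Finset.card_univ, Fintype.card_fin, smul_eq_mul] at h2
  exact h2

/-- The bound for the proportion of the exceptional multiplicities. -/
noncomputable def bad (r : ℕ) : ℝ :=
  if r = 11 ∨ r = 15 then (Real.sqrt r - 3) / 6 else
    (min (Real.sqrt r - 3) (2 / 3 + 9 / (4 * Real.sqrt r)) +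
      min (Real.sqrt r - 3) (2 / 3 + 1 / (4 * Real.sqrt r))) / 2

lemma bad_ten : bad 10 < 0.1623 := by
  have h1 : Real.sqrt ((10 : ℕ) : ℝ) < 3.1623 := by
    rw [Real.sqrt_lt' (by norm_num)]
    norm_num
  unfold bad
  rw [if_neg (by norm_num)]
  have h2 := min_le_left (Real.sqrt ((10 : ℕ) : ℝ) - 3) (2 / 3 + 9 / (4 * Real.sqrt ((10 : ℕ) : ℝ)))
  have h3 := min_le_left (Real.sqrt ((10 : ℕ) : ℝ) - 3) (2 / 3 + 1 / (4 * Real.sqrt ((10 : ℕ) : ℝ)))
  linarith

lemma bad_eleven : bad 11 < 0.0528 := by
  have h1 : Real.sqrt ((11 : ℕ) : ℝ) < 3.3167 := by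
    rw [Real.sqrt_lt' (by norm_num)]
    norm_num
  unfold bad
  rw [if_pos (by norm_num)]
  linarith

lemma bad_twelve : bad 12 < 0.4642 := by
  have h1 : Real.sqrt ((12 : ℕ) : ℝ) < 3.4642 := by
    rw [Real.sqrt_lt' (by norm_num)]
    norm_num
  unfold bad
  rw [if_neg (by norm_num)]
  have h2 := min_le_left (Real.sqrt ((12 : ℕ) : ℝ) - 3) (2 / 3 + 9 / (4 * Real.sqrt ((12 : ℕ) : ℝ)))
  have h3 := min_le_left (Real.sqrt ((12 : ℕ) : ℝ) - 3) (2 / 3 + 1 / (4 * Real.sqrt ((12 : ℕ) : ℝ)))
  linarith

lemma bad_fifteen : bad 15 < 0.1456 := by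
  have h1 : Real.sqrt ((15 : ℕ) : ℝ) < 3.873 := by
    rw [Real.sqrt_lt' (by norm_num)]
    norm_num
  unfold bad
  rw [if_pos (by norm_num)]
  linarith

lemma bad_prod : 1 - (1 - bad 10) * (1 - bad 11) * (1 - bad 15) < 0.3221 := by
  have h1 := bad_ten
  have h2 := bad_eleven
  have h3 := bad_fifteen
  obtain ⟨x, hx⟩ : ∃ x, x = 1 - bad 10 := ⟨_, rfl⟩
  obtain ⟨y, hy⟩ : ∃ y, y = 1 - bad 11 := ⟨_, rfl⟩
  obtain ⟨z, hz⟩ : ∃ z, z = 1 - bad 15 := ⟨_, rfl⟩
  rw [← hx, ← hy, ← hz]
  have h4 : 0.8377 ≤ x := by linarith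
  have h5 : 0.9472 ≤ y := by linarith
  have h6 : 0.8544 ≤ z := by linarith
  have h7 : 0.8377 * 0.9472 ≤ x * y := mul_le_mul h4 h5 (by norm_num) (by linarith)
  have h8 : 0.8377 * 0.9472 * 0.8544 ≤ x * y * z := mul_le_mul h7 h6 (by norm_num) (by linarith [h7])
  norm_num at h8 ⊢
  linarith

/-- `SparseExceptions κ K M η P`: the property `P` fails rarely in polynomial sequences and along primes.
1. For every polynomial `f` with integer coefficients of degree between `1` and `K`, the leading coefficient being at most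
   `M ^ κ` in absolute value (the other coefficients are arbitrary), `P (f n)` fails for at most
   `η M + M ^ (1 - κ)` of the natural numbers `n < M` with `f n > 0`.
2. For all integers `b ≠ 0` and `h` and natural numbers `d ≥ 1` and `a`, `|b|, d ≤ M ^ κ`, `P (b p + h)` fails for at most
   `η T + M ^ (1 - κ)` of the `T` primes `p ≤ M` with `p ≡ a mod d` (only those with `b p + h > 0` are counted). -/
def SparseExceptions (κ : ℝ) (K M : ℕ) (η : ℝ) (P : ℕ → Prop) : Prop :=
  (∀ f : Polynomial ℤ, 1 ≤ f.natDegree → f.natDegree ≤ K → |(f.leadingCoeff : ℝ)| ≤ (M : ℝ) ^ κ →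
    ({n : ℕ | n < M ∧ 0 < f.eval (n : ℤ) ∧ ¬ P (f.eval (n : ℤ)).toNat}.ncard : ℝ) ≤
      η * M + (M : ℝ) ^ (1 - κ)) ∧
  (∀ b h : ℤ, b ≠ 0 → |(b : ℝ)| ≤ (M : ℝ) ^ κ → ∀ d a : ℕ, 1 ≤ d → (d : ℝ) ≤ (M : ℝ) ^ κ →
    ({p : ℕ | p ≤ M ∧ p.Prime ∧ p ≡ a [MOD d] ∧ 0 < b * p + h ∧ ¬ P (b * p + h).toNat}.ncard : ℝ) ≤
      η * ({p : ℕ | p ≤ M ∧ p.Prime ∧ p ≡ a [MOD d]}.ncard : ℝ) + (M : ℝ) ^ (1 - κ))

/-- 1. Let `T` be a nonempty finite set of numbers `r ≥ 10`, no element of `T` and no product of two different elements being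
a perfect square. For every `K` there are `0 < κ ≤ 1` and `M₀` such that for all `M ≥ M₀` the multiplicities for which the
conclusion `AllDegrees` fails for SOME `r` in `T`, or for some `r ≥ 37`, or for `r = 13` or `21`, or for some perfect square
`r ≥ 10`, have the proportion at most `1 - ∏_(r in T) (1 - bad r)` in all the sequences of `SparseExceptions`, up to
`M ^ (1 - κ)`.
2. The numbers `bad r` are less than one; `bad 10 < 0.1623`, `bad 11 < 0.0528`, `bad 12 < 0.4642`, `bad 15 < 0.1456`, and
the proportion for `T = {10, 11, 15}` is less than `0.3221`. -/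
theorem result :
    (∀ T : Finset ℕ, T.Nonempty → (∀ r ∈ T, 10 ≤ r) → (∀ r ∈ T, ¬ IsSquare r) →
      (∀ r ∈ T, ∀ r' ∈ T, r ≠ r' → ¬ IsSquare (r * r')) → ∀ K : ℕ,
      ∃ κ : ℝ, 0 < κ ∧ κ ≤ 1 ∧ ∃ M₀ : ℕ, ∀ M : ℕ, M₀ ≤ M →
        SparseExceptions κ K M (1 - ∏ r ∈ T, (1 - bad r)) (fun m => ∀ r : ℕ,
          (r ∈ T ∨ 37 ≤ r ∨ r = 13 ∨ r = 21 ∨ (10 ≤ r ∧ IsSquare r)) → AllDegrees r m)) ∧
    (∀ r : ℕ, 10 ≤ r → 0 ≤ bad r ∧ bad r < 1) ∧ bad 10 < 0.1623 ∧ bad 11 < 0.0528 ∧ bad 12 < 0.4642 ∧
    bad 15 < 0.1456 ∧ 1 - (1 - bad 10) * (1 - bad 11) * (1 - bad 15) < 0.3221 := by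
  refine ⟨fun T hT hT10 hsq hpair K => ?_, fun r hr => ⟨Pool.Agent.Q54.FM.bd_nonneg hr, Pool.Agent.Q54.FM.bd_lt hr⟩,
    bad_ten, bad_eleven, bad_twelve, bad_fifteen, bad_prod⟩
  obtain ⟨κ, hκ, hκ1, M₀, -, h⟩ := Pool.Agent.Q54.FM.several_points
    (Pool.Agent.Q54.FM.inputs.mono allDegrees_of) T hT hT10 hsq hpair K
  exact ⟨κ, hκ, hκ1, M₀, h⟩

end Pool.Agent.Results.MP_d03834_ag.PolynomialPrimeMultiplicities
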